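import Mathlib

/-!
# The number of `p`-regular elementary symmetric partitions

For a partition `l` of `n` (parts `l_1, ..., l_r`) with at least `k` parts, `epsPart k l` is the
multiset of the products of `k` parts over all `k`-element index sets.  `IP k n` is the (finite)
set of all these multisets, and `r d k n` counts the members of `IP k n` none of whose
elements is divisible by `d`.  We prove, for every prime `p` and every `n`,
`r p 1 n - r p 2 n = 0` if `p ∣ n` and `= 1` otherwise.
-/

namespace Pool.Agent.Results.MP_e3b57e_co.RegularDifference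

open Multiset

/-- `epsPart k s`: the multiset of all products of `k` parts of `s`, one for each `k`-element set
of indices (a partition is identified with the multiset of its parts). -/
def epsPart (k : ℕ) (s : Multiset ℕ) : Multiset ℕ :=
  (s.powersetCard k).map Multiset.prod

/-- `IP k n`: the set of all `epsPart k l`, where `l` runs over the partitions of `n` with at
least `k` parts (coinciding images are counted once). -/
def IP (k n : ℕ) : Finset (Multiset ℕ) :=
  ((Finset.univ : Finset (Nat.Partition n)).filter (fun l => k ≤ l.parts.card)).image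
    (fun l => epsPart k l.parts)

/-- `r d k n`: the number of members of `IP k n` which are `d`-regular, i.e. none of whose parts
is divisible by `d`. -/
def r (d k n : ℕ) : ℕ :=
  ((IP k n).filter (fun m => ∀ x ∈ m, ¬ d ∣ x)).card

/-- `p_m(s)^2 = p_{2m}(s) + 2 * sum over pairs of (product)^m`. -/
theorem sq_powersum (m : ℕ) (s : Multiset ℕ) :
    ((s.map (fun x => x ^ m)).sum) ^ 2 =
      (s.map (fun x => x ^ (2 * m))).sum + 2 * ((epsPart 2 s).map (fun x => x ^ m)).sum := by
  induction s using Multiset.induction_on with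
  | empty =>
    have : powersetCard 2 (0 : Multiset ℕ) = 0 := Multiset.powersetCard_zero_right 1
    simp [epsPart, this]
  | cons a s ih =>
    have h1 : ((epsPart 2 (a ::ₘ s)).map (fun x => x ^ m)).sum =
        ((epsPart 2 s).map (fun x => x ^ m)).sum + a ^ m * (s.map (fun x => x ^ m)).sum := by
      unfold epsPart
      rw [show (2 : ℕ) = 1 + 1 from rfl, Multiset.powersetCard_cons, Multiset.powersetCard_one]
      simp only [Multiset.map_add, Multiset.map_map, Multiset.sum_add, Function.comp,
        Multiset.prod_cons, Multiset.prod_singleton, mul_pow]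
      rw [Multiset.sum_map_mul_left]
    rw [h1]
    simp only [Multiset.map_cons, Multiset.sum_cons]
    have h2 : a ^ (2 * m) = (a ^ m) ^ 2 := by rw [← pow_mul, mul_comm]
    rw [h2]
    nlinarith [ih]

/-- If two multisets of naturals have the same pair products and the same sum, all their
power sums with exponent a power of two agree. -/
theorem powersum_eq {s t : Multiset ℕ} (hsum : s.sum = t.sum) (he : epsPart 2 s = epsPart 2 t)
    (j : ℕ) : (s.map (fun x => x ^ (2 ^ j))).sum = (t.map (fun x => x ^ (2 ^ j))).sum := by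
  induction j with
  | zero => simpa using hsum
  | succ j ih =>
    have hs := sq_powersum (2 ^ j) s
    have ht := sq_powersum (2 ^ j) t
    rw [ih, he] at hs
    rw [pow_succ, mul_comm (2 ^ j) 2]
    omega

/-- Growth estimate: `(w+1)^N > c * w^N` once `N ≥ c * w`, `N ≥ 1`. -/
theorem growth (w c N : ℕ) (hN : c * w ≤ N) (hN1 : 1 ≤ N) : c * w ^ N < (w + 1) ^ N := by
  have key : w ^ N + N * w ^ (N - 1) ≤ (w + 1) ^ N := by
    clear hN
    induction N, hN1 using Nat.le_induction with
    | base => simp
    | succ N hN ih =>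
      obtain ⟨M, rfl⟩ : ∃ M, N = M + 1 := ⟨N - 1, by omega⟩
      simp only [Nat.add_sub_cancel] at ih ⊢
      have := Nat.mul_le_mul_right (w + 1) ih
      calc w ^ (M + 1 + 1) + (M + 1 + 1) * w ^ (M + 1)
          ≤ (w ^ (M + 1) + (M + 1) * w ^ M) * (w + 1) := by ring_nf; omega
        _ ≤ (w + 1) ^ (M + 1) * (w + 1) := this
        _ = (w + 1) ^ (M + 1 + 1) := by ring
  rcases Nat.eq_zero_or_pos w with rfl | hw
  · have : (0 : ℕ) ^ N = 0 := by simp; omega
    simp [this]
  · have h1 : w ^ N = w * w ^ (N - 1) := by
      conv_lhs => rw [show N = (N - 1) + 1 by omega]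
      ring
    have h2 : c * w ^ N ≤ N * w ^ (N - 1) := by
      rw [h1, ← mul_assoc]
      exact Nat.mul_le_mul_right _ hN
    have h3 : 0 < w ^ N := pow_pos hw N
    omega

/-- Disjoint multisets of positive naturals, all of whose power sums with exponent a power of two
agree: the first one is empty. Auxiliary one-sided form. -/
theorem aux_lt {s t : Multiset ℕ} (v : ℕ) (hv : v ∈ s)
    (ht : ∀ x ∈ t, x < v)
    (h : ∀ j : ℕ, (s.map (fun x => x ^ (2 ^ j))).sum = (t.map (fun x => x ^ (2 ^ j))).sum) :
    v = 0 := by
  by_contra hv0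
  obtain ⟨w, rfl⟩ : ∃ w, v = w + 1 := ⟨v - 1, by omega⟩
  have hj : t.card * w < 2 ^ (t.card * w) := Nat.lt_two_pow_self
  have h1 : (w + 1) ^ (2 ^ (t.card * w)) ≤ (s.map (fun x => x ^ (2 ^ (t.card * w)))).sum := by
    apply Multiset.single_le_sum (fun x _ => Nat.zero_le x)
    exact Multiset.mem_map_of_mem _ hv
  have h2 : (t.map (fun x => x ^ (2 ^ (t.card * w)))).sum ≤ t.card * w ^ (2 ^ (t.card * w)) := by
    have := Multiset.sum_le_card_nsmul (t.map (fun x => x ^ (2 ^ (t.card * w))))
      (w ^ (2 ^ (t.card * w))) (by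
        intro y hy
        rw [Multiset.mem_map] at hy
        obtain ⟨x, hx, rfl⟩ := hy
        exact Nat.pow_le_pow_left (by have := ht x hx; omega) _)
    simpa using this
  have h3 := growth w t.card (2 ^ (t.card * w)) hj.le (Nat.one_le_two_pow)
  have h4 := h (t.card * w)
  omega

/-- A multiset of positive naturals is determined by its power sums with exponents `2^j`. -/
theorem eq_of_powersum_eq {s t : Multiset ℕ} (hs : ∀ x ∈ s, 0 < x) (ht : ∀ x ∈ t, 0 < x)
    (h : ∀ j : ℕ, (s.map (fun x => x ^ (2 ^ j))).sum = (t.map (fun x => x ^ (2 ^ j))).sum) :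
    s = t := by
  classical
  set u := s ∩ t with hu
  have hsu : (s - u) + u = s := Multiset.sub_add_cancel (Multiset.inter_le_left)
  have htu : (t - u) + u = t := Multiset.sub_add_cancel (Multiset.inter_le_right)
  set s' := s - u with hs'
  set t' := t - u with ht'
  have hdis : ∀ x, x ∈ s' → x ∉ t' := by
    intro x hx hx'
    rw [hs', Multiset.mem_sub, hu, Multiset.count_inter] at hx
    rw [ht', Multiset.mem_sub, hu, Multiset.count_inter] at hx'
    omega
  have hposs : ∀ x ∈ s', 0 < x := fun x hx =>
    hs x (Multiset.mem_of_le (Multiset.sub_le_self _ _) hx)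
  have hpost : ∀ x ∈ t', 0 < x := fun x hx =>
    ht x (Multiset.mem_of_le (Multiset.sub_le_self _ _) hx)
  have h' : ∀ j : ℕ, (s'.map (fun x => x ^ (2 ^ j))).sum = (t'.map (fun x => x ^ (2 ^ j))).sum := by
    intro j
    have := h j
    rw [← hsu, ← htu] at this
    simp only [Multiset.map_add, Multiset.sum_add] at this
    omega
  have key : s' = 0 ∧ t' = 0 := by
    by_contra hne
    have hne' : (s' + t') ≠ 0 := by
      intro h0
      apply hne
      have := Multiset.card_eq_zero.mpr h0
      rw [Multiset.card_add] at this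
      exact ⟨Multiset.card_eq_zero.mp (by omega), Multiset.card_eq_zero.mp (by omega)⟩
    obtain ⟨v, hv, hmax⟩ : ∃ v ∈ s' + t', ∀ x ∈ s' + t', x ≤ v := by
      have hfin : (s' + t').toFinset.Nonempty := by
        rw [Multiset.toFinset_nonempty]; exact hne'
      refine ⟨(s' + t').toFinset.max' hfin, ?_, ?_⟩
      · exact Multiset.mem_toFinset.mp (Finset.max'_mem _ _)
      · intro x hx
        exact Finset.le_max' _ _ (Multiset.mem_toFinset.mpr hx)
    rcases Multiset.mem_add.mp hv with hvs | hvt
    · have := aux_lt (s := s') (t := t') v hvs (by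
        intro x hx
        have h1 := hmax x (Multiset.mem_add.mpr (Or.inr hx))
        rcases Nat.lt_or_eq_of_le h1 with h2 | h2
        · exact h2
        · subst h2; exact absurd hx (hdis _ hvs)) h'
      have := hposs v hvs
      omega
    · have := aux_lt (s := t') (t := s') v hvt (by
        intro x hx
        have h1 := hmax x (Multiset.mem_add.mpr (Or.inl hx))
        rcases Nat.lt_or_eq_of_le h1 with h2 | h2
        · exact h2
        · subst h2; exact absurd hvt (hdis _ hx)) (fun j => (h' j).symm)
      have := hpost v hvt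
      omega
  rw [← hsu, ← htu, key.1, key.2]

/-- Injectivity of `epsPart 2` on all partitions of `n`. -/
theorem epsPart_two_injective {n : ℕ} (a b : Nat.Partition n)
    (h : epsPart 2 a.parts = epsPart 2 b.parts) : a = b := by
  have hsum : a.parts.sum = b.parts.sum := by rw [a.parts_sum, b.parts_sum]
  have := eq_of_powersum_eq (fun x hx => a.parts_pos hx) (fun x hx => b.parts_pos hx)
    (powersum_eq hsum h)
  exact Nat.Partition.ext this

theorem epsPart_one (s : Multiset ℕ) : epsPart 1 s = s := by
  unfold epsPart
  rw [Multiset.powersetCard_one]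
  simp

/-- For a prime `p` and a multiset with at least two elements, `epsPart 2` is `p`-regular iff the
multiset is. -/
theorem regular_iff {p : ℕ} (hp : p.Prime) {s : Multiset ℕ} (hs : 2 ≤ s.card) :
    (∀ x ∈ epsPart 2 s, ¬ p ∣ x) ↔ ∀ x ∈ s, ¬ p ∣ x := by
  constructor
  · intro h x hx hdvd
    obtain ⟨t, rfl⟩ := Multiset.exists_cons_of_mem hx
    have ht : t ≠ 0 := by
      rintro rfl
      simp at hs
    obtain ⟨y, hy⟩ := Multiset.exists_mem_of_ne_zero ht
    refine h (x * y) ?_ (Dvd.dvd.mul_right hdvd y)
    unfold epsPart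
    rw [Multiset.mem_map]
    refine ⟨x ::ₘ {y}, ?_, by simp⟩
    rw [Multiset.mem_powersetCard]
    refine ⟨?_, by simp⟩
    rw [Multiset.cons_le_cons_iff, Multiset.singleton_le]
    exact hy
  · intro h x hx hdvd
    unfold epsPart at hx
    rw [Multiset.mem_map] at hx
    obtain ⟨t, ht, rfl⟩ := hx
    rw [Multiset.mem_powersetCard] at ht
    obtain ⟨y, hy, hpy⟩ := (hp.prime.exists_mem_multiset_dvd hdvd : ∃ a ∈ t, p ∣ a)
    exact h y (Multiset.mem_of_le ht.1 hy) hpy

theorem r_one (p n : ℕ) : r p 1 n =
    ((Finset.univ : Finset (Nat.Partition n)).filter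
      (fun l => 1 ≤ l.parts.card ∧ ∀ x ∈ l.parts, ¬ p ∣ x)).card := by
  unfold r IP
  rw [Finset.filter_image, Finset.filter_filter]
  simp only [epsPart_one]
  rw [Finset.card_image_of_injective]
  intro a b hab
  exact Nat.Partition.ext hab

theorem r_two {p : ℕ} (hp : p.Prime) (n : ℕ) : r p 2 n =
    ((Finset.univ : Finset (Nat.Partition n)).filter
      (fun l => 2 ≤ l.parts.card ∧ ∀ x ∈ l.parts, ¬ p ∣ x)).card := by
  unfold r IP
  rw [Finset.filter_image, Finset.filter_filter]
  rw [Finset.card_image_of_injective]
  · congr 1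
    ext l
    simp only [Finset.mem_filter, Finset.mem_univ, true_and]
    constructor
    · rintro ⟨h1, h2⟩
      exact ⟨h1, (regular_iff hp h1).mp h2⟩
    · rintro ⟨h1, h2⟩
      exact ⟨h1, (regular_iff hp h1).mpr h2⟩
  · intro a b hab
    exact epsPart_two_injective a b hab

theorem card_one_part (p n : ℕ) :
    ((Finset.univ : Finset (Nat.Partition n)).filter
      (fun l => l.parts.card = 1 ∧ ∀ x ∈ l.parts, ¬ p ∣ x)).card = if p ∣ n then 0 else 1 := by
  split_ifs with h
  · rw [Finset.card_eq_zero, Finset.filter_eq_empty_iff]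
    rintro l - ⟨h1, h2⟩
    obtain ⟨a, ha⟩ := Multiset.card_eq_one.mp h1
    have hsum := l.parts_sum
    rw [ha, Multiset.sum_singleton] at hsum
    exact h2 a (by rw [ha]; exact Multiset.mem_singleton_self a) (hsum ▸ h)
  · rw [Finset.card_eq_one]
    have hn : n ≠ 0 := by rintro rfl; exact h (dvd_zero p)
    refine ⟨⟨{n}, by intro i hi; rw [Multiset.mem_singleton] at hi; omega, by simp⟩, ?_⟩
    ext l
    simp only [Finset.mem_filter, Finset.mem_univ, true_and, Finset.mem_singleton]
    constructor
    · rintro ⟨h1, -⟩
      obtain ⟨a, ha⟩ := Multiset.card_eq_one.mp h1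
      have hsum := l.parts_sum
      rw [ha, Multiset.sum_singleton] at hsum
      apply Nat.Partition.ext
      rw [ha, hsum]
    · rintro rfl
      simpa using h

/-- **Full answer to Q1 (the formula is proved).** For every prime `p` and every `n`, the number
of `p`-regular members of `IP 1 n` minus the number of `p`-regular members of `IP 2 n` is `0` if
`p ∣ n` and `1` otherwise. -/
theorem result : ∀ p : ℕ, p.Prime → ∀ n : ℕ,
    (r p 1 n : ℤ) - (r p 2 n : ℤ) = if p ∣ n then 0 else 1 := by
  intro p hp n
  have h : r p 1 n = r p 2 n + if p ∣ n then 0 else 1 := by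
    rw [r_one, r_two hp, ← card_one_part p n, ← Finset.card_union_of_disjoint]
    · congr 1
      ext l
      simp only [Finset.mem_filter, Finset.mem_univ, true_and, Finset.mem_union]
      constructor
      · rintro ⟨h1, h2⟩
        rcases Nat.lt_or_ge l.parts.card 2 with h3 | h3
        · exact Or.inr ⟨by omega, h2⟩
        · exact Or.inl ⟨h3, h2⟩
      · rintro (⟨h1, h2⟩ | ⟨h1, h2⟩)
        · exact ⟨by omega, h2⟩
        · exact ⟨by omega, h2⟩
    · rw [Finset.disjoint_left]
      intro l h1 h2
      simp only [Finset.mem_filter, Finset.mem_univ, true_and] at h1 h2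
      omega
  rw [h]
  split_ifs <;> push_cast <;> ring

end Pool.Agent.Results.MP_e3b57e_co.RegularDifference
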